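import Mathlib
import Pool.Agent.TH908.GT.A

/-! Fresh small labels with short reserved sets. -/

set_option autoImplicit false

namespace Pool.Agent.TH908.GT

open Finset Pool.Agent.H276R3.GA

/-- the reserved set of a new small vertex with label `gw` -/
def resv (P q a D gw : ℕ) : Finset ℕ :=
  (Finset.range (a + 1)).image (fun j => P + gw + j * q) ∪
    (Finset.range (D + 1)).image (fun l => P + gw + a * q + l * gw)

theorem resv_card (P q a D gw : ℕ) : (resv P q a D gw).card ≤ a + D + 2 := by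
  unfold resv
  refine (Finset.card_union_le _ _).trans ?_
  have h1 := Finset.card_image_le (s := Finset.range (a + 1)) (f := fun j => P + gw + j * q)
  have h2 := Finset.card_image_le (s := Finset.range (D + 1))
    (f := fun l => P + gw + a * q + l * gw)
  rw [Finset.card_range] at h1 h2
  omega

theorem mem_resv1 {P q a D gw j : ℕ} (hj : j ≤ a) : P + gw + j * q ∈ resv P q a D gw := by
  unfold resv
  rw [Finset.mem_union]
  left
  exact Finset.mem_image.2 ⟨j, Finset.mem_range.2 (by omega), rfl⟩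

theorem mem_resv2 {P q a D gw l : ℕ} (hl : l ≤ D) :
    P + gw + a * q + l * gw ∈ resv P q a D gw := by
  unfold resv
  rw [Finset.mem_union]
  right
  exact Finset.mem_image.2 ⟨l, Finset.mem_range.2 (by omega), rfl⟩

theorem exists_gw (P q a D R P0 : ℕ) (Bad G : Finset ℕ)
    (hR : 2 * (G.card + (a + D + 2) * Bad.card) + P0 + 2 ≤ R) :
    ∃ gw, gw % 2 = 1 ∧ P0 < gw ∧ gw ≤ R ∧ gw ∉ G ∧ ∀ n ∈ resv P q a D gw, n ∉ Bad := by
  classical
  obtain ⟨c, hc1, hc2, hc3⟩ : ∃ c, c % 2 = 1 ∧ P0 < c ∧ c ≤ P0 + 2 := by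
    rcases Nat.even_or_odd' P0 with ⟨r, hr | hr⟩
    · exact ⟨P0 + 1, by omega, by omega, by omega⟩
    · exact ⟨P0 + 2, by omega, by omega, by omega⟩
  obtain ⟨N, hN⟩ : ∃ N, N = G.card + (a + D + 2) * Bad.card := ⟨_, rfl⟩
  rw [← hN] at hR
  set B1 : Finset ℕ := ((Finset.range (a + 1)) ×ˢ Bad).image
    (fun z => z.2 - (P + z.1 * q)) with hB1
  set B2 : Finset ℕ := ((Finset.range (D + 1)) ×ˢ Bad).image
    (fun z => (z.2 - (P + a * q)) / (z.1 + 1)) with hB2
  have h1 : B1.card ≤ (a + 1) * Bad.card := by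
    refine Finset.card_image_le.trans ?_
    rw [Finset.card_product, Finset.card_range]
  have h2 : B2.card ≤ (D + 1) * Bad.card := by
    refine Finset.card_image_le.trans ?_
    rw [Finset.card_product, Finset.card_range]
  have h3 : (G ∪ (B1 ∪ B2)).card ≤ N := by
    refine (Finset.card_union_le _ _).trans ?_
    have h4 := Finset.card_union_le B1 B2
    have h5 : N = G.card + ((a + 1) * Bad.card + (D + 1) * Bad.card) := by rw [hN]; ring
    omega
  have hinj : Set.InjOn (fun j : ℕ => c + 2 * j) (Finset.range (N + 1) : Finset ℕ) := by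
    intro x _ y _ hxy
    simp only at hxy
    omega
  have hcard : ((Finset.range (N + 1)).image (fun j : ℕ => c + 2 * j)).card = N + 1 := by
    rw [Finset.card_image_of_injOn hinj, Finset.card_range]
  obtain ⟨x, hx, hxO⟩ := Finset.exists_mem_notMem_of_card_lt_card
    (s := G ∪ (B1 ∪ B2)) (t := (Finset.range (N + 1)).image (fun j : ℕ => c + 2 * j)) (by omega)
  obtain ⟨j, hj, rfl⟩ := Finset.mem_image.1 hx
  rw [Finset.mem_range] at hj
  rw [Finset.mem_union, Finset.mem_union, not_or, not_or] at hxO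
  obtain ⟨gw, hgw⟩ : ∃ gw, gw = c + 2 * j := ⟨_, rfl⟩
  rw [← hgw] at hxO
  refine ⟨gw, by omega, by omega, by omega, hxO.1, ?_⟩
  intro n hn hnB
  unfold resv at hn
  rcases Finset.mem_union.1 hn with h | h
  · obtain ⟨i, hi, rfl⟩ := Finset.mem_image.1 h
    apply hxO.2.1
    rw [hB1, Finset.mem_image]
    refine ⟨(i, P + gw + i * q), Finset.mem_product.2 ⟨hi, hnB⟩, ?_⟩
    simp only
    omega
  · obtain ⟨i, hi, rfl⟩ := Finset.mem_image.1 h
    apply hxO.2.2
    rw [hB2, Finset.mem_image]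
    refine ⟨(i, P + gw + a * q + i * gw), Finset.mem_product.2 ⟨hi, hnB⟩, ?_⟩
    simp only
    have h6 : P + gw + a * q + i * gw - (P + a * q) = (i + 1) * gw := by
      have : P + gw + a * q + i * gw = (i + 1) * gw + (P + a * q) := by ring
      omega
    rw [h6]
    exact Nat.mul_div_cancel_left _ (Nat.succ_pos _)

variable {V : Type} [DecidableEq V]

/-- open a new small vertex with a fresh label -/
theorem opn' {v : V} {par : V → V} {dd : V → ℕ} {A : Finset V} {M P0 R RB D : ℕ} {T : ℤ}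
    {W S Op : Finset V} {g ent : V → ℕ} {rho : V → V} {Rs : V → Finset ℕ}
    (E : Env v par dd A) (hT8 : T % 16 = 8)
    (hT : ∀ x ∈ A, 16 * ((M : ℤ) + RB * dd x) + 16 * R + 16 < T)
    (hAM : A.card ≤ M) (hR : 2 * ((2 * D + 3) ^ 2 * M) + P0 + 2 ≤ R)
    (H : St v par dd A M P0 R RB (2 * D + 2) T W S Op g ent rho Rs) {p w : V}
    (hp : p ∈ W) (hpS : p ∉ S) (hwA : w ∈ A) (hwW : w ∉ W) (hpw : par w = p)
    (q a : ℕ) (ha : a ≤ D) :
    ∃ (gw : ℕ) (N : Finset ℕ), gw ≤ R ∧ (∀ j ≤ a, g p + gw + j * q ∈ N) ∧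
      (∀ l ≤ D, g p + gw + a * q + l * gw ∈ N) ∧
      St v par dd A M P0 R RB (2 * D + 2) T (insert w W) (insert w S) (insert w Op)
        (Function.update g w gw) (Function.update ent w (g p + gw)) (Function.update rho w w)
        (Function.update Rs w N) := by
  classical
  have hWM : W.card ≤ M := (Finset.card_le_card H.sub).trans hAM
  set Bad : Finset ℕ := (W \ S).image g ∪ Op.biUnion Rs with hBad
  have hb1 : Bad.card ≤ (2 * D + 2) * M := by
    rw [hBad]
    refine (Finset.card_union_le _ _).trans ?_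
    have h1 : ((W \ S).image g).card ≤ (W \ S).card := Finset.card_image_le
    have h2 : (Op.biUnion Rs).card ≤ Op.card * (2 * D + 2) :=
      Finset.card_biUnion_le_card_mul _ _ _ (fun u hu => H.cardR u hu)
    have h3 : (W \ S).card = W.card - S.card := Finset.card_sdiff_of_subset H.Ssub
    have h4 := Finset.card_le_card H.Ssub
    have h5 := Finset.card_le_card H.Osub
    have h6 : (W \ S).card ≤ (W \ S).card * (2 * D + 2) := Nat.le_mul_of_pos_right _ (by omega)
    have h7 : ((W \ S).card + Op.card) * (2 * D + 2) ≤ M * (2 * D + 2) :=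
      Nat.mul_le_mul_right _ (by omega)
    rw [add_mul] at h7
    rw [mul_comm (2 * D + 2) M]
    omega
  have hg1 : (S.image g).card ≤ M :=
    Finset.card_image_le.trans ((Finset.card_le_card H.Ssub).trans hWM)
  obtain ⟨gw, h1, h2, h3, h4, h5⟩ := exists_gw (g p) q a D R P0 Bad (S.image g) (by
    have h1 : (a + D + 2) * Bad.card ≤ (2 * D + 2) * ((2 * D + 2) * M) :=
      Nat.mul_le_mul (by omega) hb1
    have h2 : (2 * D + 3) ^ 2 * M = (2 * D + 2) * ((2 * D + 2) * M) + (4 * D + 4) * M + M := by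
      ring
    omega)
  refine ⟨gw, resv (g p) q a D gw, h3, fun j hj => mem_resv1 hj, fun l hl => mem_resv2 hl, ?_⟩
  refine opn E hT8 hT H hp hpS hwA hwW hpw h1 h2 h3 ?_ ?_ ?_ ?_ ?_
  · intro s hs he
    exact h4 (Finset.mem_image.2 ⟨s, hs, he⟩)
  · have := mem_resv1 (P := g p) (q := q) (a := a) (D := D) (gw := gw) (j := 0) (by omega)
    simpa using this
  · intro n hn x hx hxS he
    apply h5 n hn
    rw [hBad, Finset.mem_union]
    left
    exact Finset.mem_image.2 ⟨x, Finset.mem_sdiff.2 ⟨hx, hxS⟩, he⟩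
  · intro n hn u hu he
    apply h5 n hn
    rw [hBad, Finset.mem_union]
    right
    exact Finset.mem_biUnion.2 ⟨u, hu, he⟩
  · exact (resv_card _ _ _ _ _).trans (by omega)

end Pool.Agent.TH908.GT
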