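import Mathlib
import Pool.Agent.TH908.GT.B

/-! Filling: all children of a small vertex in a given set get labels by binary splitting. -/

set_option autoImplicit false

namespace Pool.Agent.TH908.GT

open Finset Pool.Agent.H276R3.GA

/-- a configuration -/
structure Cfg (V : Type) where
  W : Finset V
  S : Finset V
  Op : Finset V
  g : V → ℕ
  ent : V → ℕ
  rho : V → V
  Rs : V → Finset ℕ

variable {V : Type} [DecidableEq V]

/-- the invariants of the first phase hold -/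
def Good (v : V) (par : V → V) (dd : V → ℕ) (A : Finset V) (M P0 R RB K : ℕ) (T : ℤ)
    (X : Cfg V) : Prop :=
  St v par dd A M P0 R RB K T X.W X.S X.Op X.g X.ent X.rho X.Rs

/-- the effect of filling the children `Y` of `c`, the pending value being held by `u` -/
structure Fil (v : V) (par : V → V) (D B : ℕ) (c u : V) (Y : Finset V) (X X' : Cfg V) :
    Prop where
  hW : X.W ⊆ X'.W
  hO : X.Op ⊆ X'.Op
  hS : ∀ x ∈ X.W, (x ∈ X'.S ↔ x ∈ X.S)
  hg : ∀ x ∈ X.W, X'.g x = X.g x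
  hY : Y ⊆ X'.W
  eu : X'.ent u = X.ent u + Y.card.size * X.g c
  ru : X'.Rs u = X.Rs u
  oth : ∀ x ∈ X.Op, x ≠ u → X'.ent x = X.ent x ∧ X'.Rs x = X.Rs x
  new : ∀ x ∈ X'.Op, x ∉ X.Op → x ∉ X.W ∧ tall v par x ∧
    (∀ l ≤ D, X'.ent x + l * X'.g x ∈ X'.Rs x) ∧ X'.ent x ≤ B ∧ par x ∈ Y
  nS : ∀ x ∈ X'.S, x ∉ X.S → x ∈ X'.Op ∧ x ∉ X.Op
  nw : ∀ x ∈ X'.W, x ∉ X.W → x ∈ Y ∨ (x ∈ X'.Op ∧ par x ∈ Y)

theorem size_half {n : ℕ} (hn : 0 < n) : n.size = (n / 2).size + 1 := by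
  apply le_antisymm
  · rw [Nat.size_le, pow_succ]
    have h1 : n / 2 < 2 ^ (n / 2).size := Nat.lt_size_self _
    omega
  · have h0 : 0 < n.size := Nat.size_pos.2 hn
    obtain ⟨k, hk⟩ : ∃ k, n.size = k + 1 := ⟨n.size - 1, by omega⟩
    have h1 : n < 2 ^ (k + 1) := hk ▸ Nat.lt_size_self n
    rw [pow_succ] at h1
    have h2 : (n / 2).size ≤ k := Nat.size_le.2 (by omega)
    omega

theorem fill {v : V} {par : V → V} {dd : V → ℕ} {A : Finset V} {M P0 R RB D : ℕ} {T : ℤ}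
    (E : Env v par dd A) (hT8 : T % 16 = 8)
    (hT : ∀ x ∈ A, 16 * ((M : ℤ) + RB * dd x) + 16 * R + 16 < T)
    (hAM : A.card ≤ M) (hR : 2 * ((2 * D + 3) ^ 2 * M) + P0 + 2 ≤ R) (B : ℕ) (c : V)
    (hB : B ≤ M + RB * (dd c + 1)) :
    ∀ n : ℕ, ∀ (X : Cfg V) (u : V) (Y : Finset V), Y.card = n →
      Good v par dd A M P0 R RB (2 * D + 2) T X → c ∈ X.S → u ∈ X.Op →
      (∀ y ∈ Y, y ∈ A ∧ y ∉ X.W ∧ par y = c ∧ tall3 v par y) → n.size ≤ D →
      (∀ j ≤ n.size, X.ent u + j * X.g c ∈ X.Rs u) → X.ent u + R * n.size ≤ B →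
      ∃ X' : Cfg V, Good v par dd A M P0 R RB (2 * D + 2) T X' ∧ Fil v par D B c u Y X X' := by
  intro n
  induction n using Nat.strong_induction_on with
  | _ n ih =>
  intro X u Y hYn H hc hu hY hnD hRs hBu
  rcases Nat.eq_zero_or_pos n with hn0 | hn0
  · -- nothing to do
    have hYe : Y = ∅ := Finset.card_eq_zero.1 (hYn.trans hn0)
    refine ⟨X, H, ?_⟩
    constructor
    · exact Finset.Subset.refl _
    · exact Finset.Subset.refl _
    · exact fun x _ => Iff.rfl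
    · exact fun x _ => rfl
    · rw [hYe]; exact Finset.empty_subset _
    · rw [hYe]; simp
    · rfl
    · exact fun x _ _ => ⟨rfl, rfl⟩
    · exact fun x hx hx' => absurd hx hx'
    · exact fun x hx hx' => absurd hx hx'
    · exact fun x hx hx' => absurd hx hx'
  -- the first child
  obtain ⟨y, hyY⟩ : Y.Nonempty := Finset.card_pos.1 (by omega)
  obtain ⟨hyA, hyW, hyc, hyt⟩ := hY y hyY
  obtain ⟨w, hwv, hwy, hwt⟩ := hyt
  have hyv : y ≠ v := fun e => E.hvA (e ▸ hyA)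
  have hwA : w ∈ A := E.hpA w hwv (by rw [hwy]; exact hyv)
  have hcW : c ∈ X.W := H.Ssub hc
  have huS : u ∈ X.S := H.Osub hu
  have huW : u ∈ X.W := H.Ssub huS
  have hycne : y ≠ c := fun e => hyW (e ▸ hcW)
  have hdy := E.hd y hyv
  rw [hyc] at hdy
  have hdw := E.hd w hwv
  rw [hwy] at hdw
  have hwW : w ∉ X.W := by
    intro h
    rcases H.parc w h with h1 | h1
    · exact hyv (hwy.symm.trans h1)
    · exact hyW (hwy ▸ h1)
  have hwy' : w ≠ y := by
    intro e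
    rw [e] at hdw
    omega
  have hwc : w ≠ c := fun e => hwW (e ▸ hcW)
  have hwu : w ≠ u := fun e => hwW (e ▸ huW)
  have hyu : y ≠ u := fun e => hyW (e ▸ huW)
  have hsz := size_half hn0
  have hgcR : X.g c ≤ R := (H.sm c hc).2.2
  -- take
  have H1 := take (y := y) E hT8 hT H hc hu hyA hyW hyc (by
    have := hRs 1 (by omega)
    simpa using this) (by
    rw [hdy]
    have : 0 ≤ R * n.size := Nat.zero_le _
    omega)
  have hyS : y ∉ X.S := fun h => hyW (H.Ssub h)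
  have hwW1 : w ∉ insert y X.W := by
    rw [Finset.mem_insert, not_or]
    exact ⟨hwy', hwW⟩
  -- sizes
  obtain ⟨a, ha⟩ : ∃ a, a = ((n - 1) / 2).size := ⟨_, rfl⟩
  have hale : a ≤ (n / 2).size := by
    rw [ha]
    exact Nat.size_le_size (by omega)
  obtain ⟨gw, N, hgwR, hN1, hN2, H2⟩ := opn' E hT8 hT hAM hR H1 (p := y) (w := w)
    (Finset.mem_insert_self _ _) hyS hwA hwW1 hwy (X.g c) a (by omega)
  rw [Function.update_self] at hN1 hN2 H2
  set X2 : Cfg V := ⟨insert w (insert y X.W), insert w X.S, insert w X.Op,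
    Function.update (Function.update X.g y (X.ent u)) w gw,
    Function.update (Function.update X.ent u (X.ent u + X.g c)) w (X.ent u + gw),
    Function.update (Function.update X.rho u y) w w, Function.update X.Rs w N⟩ with hX2
  have G2 : Good v par dd A M P0 R RB (2 * D + 2) T X2 := H2
  -- data of X2
  have hgX2 : ∀ x ∈ X.W, X2.g x = X.g x := by
    intro x hx
    have h1 : x ≠ w := fun e => hwW (e ▸ hx)
    have h2 : x ≠ y := fun e => hyW (e ▸ hx)
    simp only [hX2]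
    rw [Function.update_of_ne h1, Function.update_of_ne h2]
  have hgw2 : X2.g w = gw := by simp [hX2]
  have hSX2 : ∀ x ∈ X.W, (x ∈ X2.S ↔ x ∈ X.S) := by
    intro x hx
    have h1 : x ≠ w := fun e => hwW (e ▸ hx)
    simp only [hX2, Finset.mem_insert]
    tauto
  have hentu2 : X2.ent u = X.ent u + X.g c := by
    simp only [hX2]
    rw [Function.update_of_ne hwu.symm, Function.update_self]
  have hentw2 : X2.ent w = X.ent u + gw := by simp [hX2]
  have hento2 : ∀ x ∈ X.Op, x ≠ u → X2.ent x = X.ent x := by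
    intro x hx hxu
    have h1 : x ≠ w := fun e => hwW (e ▸ H.Ssub (H.Osub hx))
    simp only [hX2]
    rw [Function.update_of_ne h1, Function.update_of_ne hxu]
  have hRso2 : ∀ x ∈ X.Op, X2.Rs x = X.Rs x := by
    intro x hx
    have h1 : x ≠ w := fun e => hwW (e ▸ H.Ssub (H.Osub hx))
    simp only [hX2]
    rw [Function.update_of_ne h1]
  have hRsw2 : X2.Rs w = N := by simp [hX2]
  have hcS2 : c ∈ X2.S := (hSX2 c hcW).2 hc
  have hOp2 : ∀ x, x ∈ X2.Op ↔ x = w ∨ x ∈ X.Op := by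
    intro x
    simp [hX2]
  have hWX2 : ∀ x, x ∈ X2.W ↔ x = w ∨ x = y ∨ x ∈ X.W := by
    intro x
    simp [hX2]
  have hS2 : ∀ x, x ∈ X2.S ↔ x = w ∨ x ∈ X.S := by
    intro x
    simp [hX2]
  have hwO : w ∉ X.Op := fun h => hwW (H.Ssub (H.Osub h))
  -- the two parts
  have hYy : (Y.erase y).card = n - 1 := by rw [Finset.card_erase_of_mem hyY, hYn]
  obtain ⟨Y1, hY1s, hY1c⟩ : ∃ Y1 ⊆ Y.erase y, Y1.card = n / 2 :=
    Finset.exists_subset_card_eq (by omega)
  obtain ⟨Y2, hY2⟩ : ∃ Y2, Y2 = (Y.erase y) \ Y1 := ⟨_, rfl⟩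
  have hY2s : Y2 ⊆ Y.erase y := by rw [hY2]; exact Finset.sdiff_subset
  have hY2c : Y2.card = (n - 1) / 2 := by
    rw [hY2, Finset.card_sdiff_of_subset hY1s, hYy, hY1c]
    omega
  have hY1Y : ∀ x ∈ Y1, x ∈ Y ∧ x ≠ y := fun x hx =>
    ⟨Finset.mem_of_mem_erase (hY1s hx), Finset.ne_of_mem_erase (hY1s hx)⟩
  have hY2Y : ∀ x ∈ Y2, x ∈ Y ∧ x ≠ y := fun x hx =>
    ⟨Finset.mem_of_mem_erase (hY2s hx), Finset.ne_of_mem_erase (hY2s hx)⟩
  have hYX2 : ∀ x ∈ Y, x ≠ y → x ∉ X2.W := by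
    intro x hx hxy h
    rcases (hWX2 x).1 h with h1 | h1 | h1
    · have h2 := (hY x hx).2.2.1
      rw [h1, hwy] at h2
      exact hycne h2
    · exact hxy h1
    · exact (hY x hx).2.1 h1
  -- first recursive call
  obtain ⟨X3, G3, F3⟩ := ih (n / 2) (by omega) X2 u Y1 hY1c G2 hcS2 ((hOp2 u).2 (Or.inr hu))
    (fun x hx => ⟨(hY x (hY1Y x hx).1).1, hYX2 x (hY1Y x hx).1 (hY1Y x hx).2,
      (hY x (hY1Y x hx).1).2.2⟩) (by omega)
    (by
      intro j hj
      rw [hRso2 u hu, hentu2, hgX2 c hcW]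
      have := hRs (j + 1) (by omega)
      rw [add_mul, one_mul] at this
      rw [add_assoc, add_comm (X.g c)]
      exact this)
    (by
      rw [hentu2]
      have h1 : R * n.size = R * (n / 2).size + R := by rw [hsz]; ring
      omega)
  have hwO2 : w ∈ X2.Op := (hOp2 w).2 (Or.inl rfl)
  have hwW2 : w ∈ X2.W := (hWX2 w).2 (Or.inl rfl)
  have hcW2 : c ∈ X2.W := (hWX2 c).2 (Or.inr (Or.inr hcW))
  have hgw3 : X3.g w = gw := by rw [F3.hg w hwW2, hgw2]
  have hgc3 : X3.g c = X.g c := by rw [F3.hg c hcW2, hgX2 c hcW]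
  have hentw3 : X3.ent w = X.ent u + gw := by rw [(F3.oth w hwO2 hwu).1, hentw2]
  have hRsw3 : X3.Rs w = N := by rw [(F3.oth w hwO2 hwu).2, hRsw2]
  have hcS3 : c ∈ X3.S := (F3.hS c hcW2).2 hcS2
  have hwO3 : w ∈ X3.Op := F3.hO hwO2
  have hY2X3 : ∀ x ∈ Y2, x ∉ X3.W := by
    intro x hx h
    rcases F3.nw x h (hYX2 x (hY2Y x hx).1 (hY2Y x hx).2) with h1 | h1
    · rw [hY2] at hx
      exact (Finset.mem_sdiff.1 hx).2 h1
    · have h2 := (hY x (hY2Y x hx).1).2.2.1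
      rw [h2] at h1
      exact (hY c (hY1Y c h1.2).1).2.1 hcW
  -- second recursive call
  obtain ⟨X4, G4, F4⟩ := ih ((n - 1) / 2) (by omega) X3 w Y2 hY2c G3 hcS3 hwO3
    (fun x hx => ⟨(hY x (hY2Y x hx).1).1, hY2X3 x hx, (hY x (hY2Y x hx).1).2.2⟩) (by omega)
    (by
      intro j hj
      rw [hRsw3, hentw3, hgc3]
      exact hN1 j (by omega))
    (by
      rw [hentw3, ← ha]
      have h1 : R * n.size = R * (n / 2).size + R := by rw [hsz]; ring
      have h2 : R * a ≤ R * (n / 2).size := Nat.mul_le_mul_left _ hale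
      omega)
  have hWX3 : ∀ x ∈ X.W, x ∈ X2.W := fun x hx => (hWX2 x).2 (Or.inr (Or.inr hx))
  refine ⟨X4, G4, ?_⟩
  constructor
  · intro x hx
    exact F4.hW (F3.hW (hWX3 x hx))
  · intro x hx
    exact F4.hO (F3.hO ((hOp2 x).2 (Or.inr hx)))
  · intro x hx
    rw [F4.hS x (F3.hW (hWX3 x hx)), F3.hS x (hWX3 x hx), hSX2 x hx]
  · intro x hx
    rw [F4.hg x (F3.hW (hWX3 x hx)), F3.hg x (hWX3 x hx), hgX2 x hx]
  · intro x hx
    by_cases hxy : x = y
    · rw [hxy]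
      exact F4.hW (F3.hW ((hWX2 y).2 (Or.inr (Or.inl rfl))))
    · by_cases hx1 : x ∈ Y1
      · exact F4.hW (F3.hY hx1)
      · apply F4.hY
        rw [hY2]
        exact Finset.mem_sdiff.2 ⟨Finset.mem_erase.2 ⟨hxy, hx⟩, hx1⟩
  · have huO3 : u ∈ X3.Op := F3.hO ((hOp2 u).2 (Or.inr hu))
    rw [(F4.oth u huO3 hwu.symm).1, F3.eu, hentu2, hgX2 c hcW, hY1c, hYn, hsz]
    ring
  · have huO3 : u ∈ X3.Op := F3.hO ((hOp2 u).2 (Or.inr hu))
    rw [(F4.oth u huO3 hwu.symm).2, F3.ru, hRso2 u hu]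
  · intro x hx hxu
    have hxw : x ≠ w := fun e => hwO (e ▸ hx)
    have hx2 : x ∈ X2.Op := (hOp2 x).2 (Or.inr hx)
    have hx3 : x ∈ X3.Op := F3.hO hx2
    rw [(F4.oth x hx3 hxw).1, (F4.oth x hx3 hxw).2, (F3.oth x hx2 hxu).1, (F3.oth x hx2 hxu).2,
      hento2 x hx hxu, hRso2 x hx]
    exact ⟨rfl, rfl⟩
  · -- new open vertices
    intro x hx hxO
    by_cases hx3 : x ∈ X3.Op
    · by_cases hx2 : x ∈ X2.Op
      · -- x = w
        have hxw : x = w := ((hOp2 x).1 hx2).resolve_right hxO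
        rw [hxw]
        have e1 : X4.ent w = X.ent u + gw + a * X.g c := by
          rw [F4.eu, hentw3, hY2c, hgc3, ha]
        have e2 : X4.g w = gw := by rw [F4.hg w (F3.hW hwW2), hgw3]
        refine ⟨hwW, hwt, ?_, ?_, by rw [hwy]; exact hyY⟩
        · intro l hl
          rw [F4.ru, hRsw3, e1, e2]
          exact hN2 l hl
        · rw [e1]
          have h1 : R * n.size = R * (n / 2).size + R := by rw [hsz]; ring
          have h2 : R * a ≤ R * (n / 2).size := Nat.mul_le_mul_left _ hale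
          have h3 : a * X.g c ≤ R * a := by
            rw [mul_comm]; exact Nat.mul_le_mul_right _ hgcR
          omega
      · obtain ⟨h1, h2, h3, h4, h5⟩ := F3.new x hx3 hx2
        have hxw : x ≠ w := fun e => hx2 (e ▸ hwO2)
        have hxW3 : x ∈ X3.W := G3.Ssub (G3.Osub hx3)
        rw [(F4.oth x hx3 hxw).1, (F4.oth x hx3 hxw).2, F4.hg x hxW3]
        exact ⟨fun h => h1 (hWX3 x h), h2, h3, h4, (hY1Y _ h5).1⟩
    · obtain ⟨h1, h2, h3, h4, h5⟩ := F4.new x hx hx3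
      exact ⟨fun h => h1 (F3.hW (hWX3 x h)), h2, h3, h4, (hY2Y _ h5).1⟩
  · intro x hx hxS
    by_cases hx3 : x ∈ X3.S
    · by_cases hx2 : x ∈ X2.S
      · have hxw : x = w := ((hS2 x).1 hx2).resolve_right hxS
        rw [hxw]
        exact ⟨F4.hO hwO3, hwO⟩
      · obtain ⟨h1, h2⟩ := F3.nS x hx3 hx2
        exact ⟨F4.hO h1, fun h => h2 ((hOp2 x).2 (Or.inr h))⟩
    · obtain ⟨h1, h2⟩ := F4.nS x hx hx3
      exact ⟨h1, fun h => h2 (F3.hO ((hOp2 x).2 (Or.inr h)))⟩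
  · intro x hx hxW
    by_cases hx3 : x ∈ X3.W
    · by_cases hx2 : x ∈ X2.W
      · rcases (hWX2 x).1 hx2 with h1 | h1 | h1
        · right
          rw [h1]
          exact ⟨F4.hO hwO3, by rw [hwy]; exact hyY⟩
        · left
          rw [h1]
          exact hyY
        · exact absurd h1 hxW
      · rcases F3.nw x hx3 hx2 with h1 | ⟨h1, h2⟩
        · exact Or.inl (hY1Y x h1).1
        · exact Or.inr ⟨F4.hO h1, (hY1Y _ h2).1⟩
    · rcases F4.nw x hx hx3 with h1 | ⟨h1, h2⟩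
      · exact Or.inl (hY2Y x h1).1
      · exact Or.inr ⟨h1, (hY2Y _ h2).1⟩

end Pool.Agent.TH908.GT
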