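import Mathlib
import Pool.Agent.TH908.GT.C

/-! The first phase: all vertices with a descendant three levels below get labels. -/

set_option autoImplicit false

namespace Pool.Agent.TH908.GT

open Finset Pool.Agent.H276R3.GA

variable {V : Type} [DecidableEq V]

/-- the invariants between two gadgets -/
structure Top (v : V) (par : V → V) (dd : V → ℕ) (A : Finset V) (M P0 R RB D : ℕ) (T : ℤ)
    (X : Cfg V) : Prop where
  good : Good v par dd A M P0 R RB (2 * D + 2) T X
  tl : ∀ u ∈ X.Op, tall v par u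
  rs : ∀ u ∈ X.Op, ∀ l ≤ D, X.ent u + l * X.g u ∈ X.Rs u
  ub : ∀ u ∈ X.Op, X.ent u ≤ M + RB * dd u
  nc : ∀ u ∈ X.Op, ∀ x ∈ X.W, par x ≠ u
  tch : ∀ x ∈ X.S, x ∉ X.Op → ∀ y ∈ A, par y = x → tall3 v par y → y ∈ X.W

theorem gadget {v : V} {par : V → V} {dd : V → ℕ} {A : Finset V} {M P0 R RB D : ℕ} {T : ℤ}
    (E : Env v par dd A) (hT8 : T % 16 = 8)
    (hT : ∀ x ∈ A, 16 * ((M : ℤ) + RB * dd x) + 16 * R + 16 < T)
    (hAM : A.card ≤ M) (hR : 2 * ((2 * D + 3) ^ 2 * M) + P0 + 2 ≤ R)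
    (hD : M.size + 1 ≤ D) (hRB : R * D ≤ RB)
    {X : Cfg V} (H : Top v par dd A M P0 R RB D T X) {c : V} (hc : c ∈ X.Op) :
    ∃ X' : Cfg V, Top v par dd A M P0 R RB D T X' ∧ X.W.card < X'.W.card := by
  classical
  have G := H.good
  have hcS : c ∈ X.S := G.Osub hc
  have hcW : c ∈ X.W := G.Ssub hcS
  have hvW : v ∉ X.W := G.vW E
  have hcv : c ≠ v := fun e => hvW (e ▸ hcW)
  obtain ⟨y0, z, hy0v, hzv, hy0c, hzy⟩ := H.tl c hc
  have hy0A : y0 ∈ A := E.hpA y0 hy0v (by rw [hy0c]; exact hcv)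
  have hzA : z ∈ A := E.hpA z hzv (by rw [hzy]; exact hy0v)
  have hy0W : y0 ∉ X.W := fun h => H.nc c hc y0 h hy0c
  have hdy0 := E.hd y0 hy0v
  rw [hy0c] at hdy0
  have hdz := E.hd z hzv
  rw [hzy] at hdz
  set Y : Finset V := (A.filter (fun y => par y = c ∧ tall3 v par y)).erase y0 with hYdef
  have hYm : ∀ y ∈ Y, y ∈ A ∧ y ∉ X.W ∧ par y = c ∧ tall3 v par y := by
    intro y hy
    have h1 := Finset.mem_of_mem_erase hy
    rw [Finset.mem_filter] at h1
    exact ⟨h1.1, fun h => H.nc c hc y h h1.2.1, h1.2⟩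
  have hYcard : Y.card ≤ M := by
    refine le_trans (Finset.card_le_card ?_) hAM
    exact (Finset.erase_subset _ _).trans (Finset.filter_subset _ _)
  have hsz : Y.card.size ≤ M.size := Nat.size_le_size hYcard
  have hub := H.ub c hc
  have hRsz : R * (Y.card.size + 1) ≤ RB :=
    (Nat.mul_le_mul_left _ (by omega)).trans hRB
  have hRsz' : R * (Y.card.size + 1) = R * Y.card.size + R := by ring
  have hRBd : RB * (dd c + 1) = RB * dd c + RB := by ring
  have hRBd2 : RB * (dd c + 2) = RB * dd c + 2 * RB := by ring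
  obtain ⟨X1, G1, F1⟩ := fill E hT8 hT hAM hR (M + RB * (dd c + 1)) c le_rfl Y.card X c Y rfl G
    hcS hc hYm (by omega) (fun j hj => H.rs c hc j (by omega)) (by omega)
  have hcO1 : c ∈ X1.Op := F1.hO hc
  have hcS1 : c ∈ X1.S := G1.Osub hcO1
  have hcW1 : c ∈ X1.W := F1.hW hcW
  have hgc1 : X1.g c = X.g c := F1.hg c hcW
  have hgcR : X.g c ≤ R := (G.sm c hcS).2.2
  have hy0W1 : y0 ∉ X1.W := by
    intro h
    rcases F1.nw y0 h hy0W with h1 | h1
    · exact Finset.notMem_erase _ _ h1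
    · rw [hy0c] at h1
      exact (hYm c h1.2).2.1 hcW
  have hbnd : X1.ent c ≤ M + RB * dd c + R * Y.card.size := by
    rw [F1.eu]
    have h1 : Y.card.size * X.g c ≤ R * Y.card.size := by
      rw [mul_comm]; exact Nat.mul_le_mul_right _ hgcR
    omega
  have hrs1 : X1.ent c + X1.g c ∈ X1.Rs c := by
    rw [F1.eu, F1.ru, hgc1]
    have := H.rs c hc (Y.card.size + 1) (by omega)
    rw [add_mul, one_mul, ← add_assoc] at this
    exact this
  -- take y0
  have H2 := take (y := y0) E hT8 hT G1 hcS1 hcO1 hy0A hy0W1 hy0c hrs1 (by rw [hdy0]; omega)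
  have hy0S1 : y0 ∉ X1.S := fun h => hy0W1 (G1.Ssub h)
  have hzy0 : z ≠ y0 := by
    intro e
    rw [e] at hdz
    omega
  have hzW1 : z ∉ X1.W := by
    intro h
    rcases G1.parc z h with h1 | h1
    · exact hy0v (hzy.symm.trans h1)
    · exact hy0W1 (hzy ▸ h1)
  have hzW2 : z ∉ insert y0 X1.W := by
    rw [Finset.mem_insert, not_or]
    exact ⟨hzy0, hzW1⟩
  have hent2 : Function.update X1.ent c (X1.ent c + X1.g c) c = X1.ent c + X1.g c :=
    Function.update_self _ _ _
  -- close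
  have H3 := cls (z := z) E hT8 hT H2 hcO1 (Function.update_self _ _ _) hy0c hy0S1 hzA hzW2 hzy
    (by
      rw [hent2, hdz, hdy0, hgc1]
      have h1 : dd c + 1 + 1 = dd c + 2 := rfl
      rw [h1, hRBd2]
      omega)
  set X3 : Cfg V := ⟨insert z (insert y0 X1.W), X1.S, X1.Op.erase c,
    Function.update (Function.update X1.g y0 (X1.ent c)) z
      (Function.update X1.ent c (X1.ent c + X1.g c) c),
    Function.update X1.ent c (X1.ent c + X1.g c), Function.update X1.rho c y0, X1.Rs⟩ with hX3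
  have G3 : Good v par dd A M P0 R RB (2 * D + 2) T X3 := H3
  have hOp3 : ∀ x, x ∈ X3.Op ↔ x ≠ c ∧ x ∈ X1.Op := by
    intro x
    simp [hX3]
  have hW3 : ∀ x, x ∈ X3.W ↔ x = z ∨ x = y0 ∨ x ∈ X1.W := by
    intro x
    simp [hX3]
  have hent3 : ∀ x, x ≠ c → X3.ent x = X1.ent x := by
    intro x hx
    simp only [hX3]
    rw [Function.update_of_ne hx]
  have hg3 : ∀ x ∈ X1.W, X3.g x = X1.g x := by
    intro x hx
    have h1 : x ≠ z := fun e => hzW1 (e ▸ hx)
    have h2 : x ≠ y0 := fun e => hy0W1 (e ▸ hx)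
    simp only [hX3]
    rw [Function.update_of_ne h1, Function.update_of_ne h2]
  have hOW1 : ∀ x ∈ X1.Op, x ∈ X1.W := fun x hx => G1.Ssub (G1.Osub hx)
  have hOW : ∀ x ∈ X.Op, x ∈ X.W := fun x hx => G.Ssub (G.Osub hx)
  refine ⟨X3, ⟨G3, ?_, ?_, ?_, ?_, ?_⟩, ?_⟩
  · intro u hu
    obtain ⟨huc, hu1⟩ := (hOp3 u).1 hu
    by_cases huO : u ∈ X.Op
    · exact H.tl u huO
    · exact (F1.new u hu1 huO).2.1
  · intro u hu l hl
    obtain ⟨huc, hu1⟩ := (hOp3 u).1 hu
    rw [hent3 u huc, hg3 u (hOW1 u hu1)]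
    have hRs3 : X3.Rs u = X1.Rs u := rfl
    rw [hRs3]
    by_cases huO : u ∈ X.Op
    · rw [(F1.oth u huO huc).1, (F1.oth u huO huc).2, F1.hg u (hOW u huO)]
      exact H.rs u huO l hl
    · exact (F1.new u hu1 huO).2.2.1 l hl
  · intro u hu
    obtain ⟨huc, hu1⟩ := (hOp3 u).1 hu
    rw [hent3 u huc]
    by_cases huO : u ∈ X.Op
    · rw [(F1.oth u huO huc).1]
      exact H.ub u huO
    · obtain ⟨h1, h2, h3, h4, h5⟩ := F1.new u hu1 huO
      refine h4.trans ?_
      have huv : u ≠ v := fun e => G1.vW E (e ▸ hOW1 u hu1)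
      have h6 := E.hd u huv
      have h7 := hYm _ h5
      have h8 : par u ≠ v := fun e => E.hvA (e ▸ h7.1)
      have h9 := E.hd (par u) h8
      rw [h7.2.2.1] at h9
      have h10 : dd c + 1 ≤ dd u := by omega
      exact Nat.add_le_add_left (Nat.mul_le_mul_left _ h10) _
  · intro u hu x hx hxu
    obtain ⟨huc, hu1⟩ := (hOp3 u).1 hu
    have huW1 := hOW1 u hu1
    rcases (hW3 x).1 hx with h | h | h
    · rw [h, hzy] at hxu
      exact hy0W1 (hxu ▸ huW1)
    · rw [h, hy0c] at hxu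
      exact huc hxu.symm
    · by_cases huO : u ∈ X.Op
      · by_cases hxW : x ∈ X.W
        · exact H.nc u huO x hxW hxu
        · rcases F1.nw x h hxW with h1 | h1
          · exact huc (hxu.symm.trans (hYm x h1).2.2.1)
          · rw [hxu] at h1
            exact (hYm u h1.2).2.1 (hOW u huO)
      · obtain ⟨h1, h2, h3, h4, h5⟩ := F1.new u hu1 huO
        by_cases hxW : x ∈ X.W
        · rcases G.parc x hxW with h6 | h6
          · rw [hxu] at h6
            exact G1.vW E (h6 ▸ huW1)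
          · rw [hxu] at h6
            exact h1 h6
        · rcases F1.nw x h hxW with h6 | h6
          · exact huc (hxu.symm.trans (hYm x h6).2.2.1)
          · rw [hxu] at h6
            -- par u ∈ Y and u ∈ Y
            have h7 := (hYm u h6.2).2.2.1
            rw [h7] at h5
            exact (hYm c h5).2.1 hcW
  · intro x hx hxO y hy hyx hyt
    have hxS1 : x ∈ X1.S := hx
    by_cases hxc : x = c
    · by_cases hyy : y = y0
      · rw [hyy]
        exact (hW3 y0).2 (Or.inr (Or.inl rfl))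
      · refine (hW3 y).2 (Or.inr (Or.inr (F1.hY ?_)))
        exact Finset.mem_erase.2 ⟨hyy, Finset.mem_filter.2 ⟨hy, hyx.trans hxc, hyt⟩⟩
    · have hxO1 : x ∉ X1.Op := fun h => hxO ((hOp3 x).2 ⟨hxc, h⟩)
      have hxS : x ∈ X.S := by
        by_contra h
        exact hxO1 (F1.nS x hxS1 h).1
      have hxO0 : x ∉ X.Op := fun h => hxO1 (F1.hO h)
      exact (hW3 y).2 (Or.inr (Or.inr (F1.hW (H.tch x hxS hxO0 y hy hyx hyt))))
  · have h1 : X3.W.card = X1.W.card + 2 := by
      simp only [hX3]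
      rw [Finset.card_insert_of_notMem hzW2, Finset.card_insert_of_notMem hy0W1]
    have h2 := Finset.card_le_card F1.hW
    omega

theorem opening {v : V} {par : V → V} {dd : V → ℕ} {A : Finset V} {M P0 R RB D : ℕ} {T : ℤ}
    (E : Env v par dd A) (hT8 : T % 16 = 8)
    (hT : ∀ x ∈ A, 16 * ((M : ℤ) + RB * dd x) + 16 * R + 16 < T)
    (hAM : A.card ≤ M) (hR : 2 * ((2 * D + 3) ^ 2 * M) + P0 + 2 ≤ R) (hRB : R ≤ RB)
    {X : Cfg V} (H : Top v par dd A M P0 R RB D T X) (hO : X.Op = ∅)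
    (hex : ∃ c ∈ A, c ∉ X.W ∧ tall3 v par c) :
    ∃ X' : Cfg V, Top v par dd A M P0 R RB D T X' ∧ X.W.card < X'.W.card := by
  classical
  have G := H.good
  obtain ⟨c0, hc0A, hc0W, hc0t⟩ := hex
  obtain ⟨c, hc, hmin⟩ := Finset.exists_min_image (A.filter (fun x => x ∉ X.W ∧ tall3 v par x)) dd
    ⟨c0, Finset.mem_filter.2 ⟨hc0A, hc0W, hc0t⟩⟩
  rw [Finset.mem_filter] at hc
  obtain ⟨hcA, hcW, hct⟩ := hc
  have hcv : c ≠ v := fun e => E.hvA (e ▸ hcA)
  have hpv : par c ≠ v := fun e => hcW (G.top c hcA e)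
  have hpA : par c ∈ A := (E.hAp c hcA).resolve_left hpv
  obtain ⟨y1, hy1v, hy1c, y2, z2, hy2v, hz2v, hy2, hz2⟩ := hct
  have hct : tall3 v par c := ⟨y1, hy1v, hy1c, y2, z2, hy2v, hz2v, hy2, hz2⟩
  have hctl : tall v par c := ⟨y1, y2, hy1v, hy2v, hy1c, hy2⟩
  have hpt : tall3 v par (par c) := ⟨c, hcv, rfl, hctl⟩
  have hdc := E.hd c hcv
  have hpW : par c ∈ X.W := by
    by_contra h
    have h1 := hmin (par c) (Finset.mem_filter.2 ⟨hpA, h, hpt⟩)
    omega
  have hpS : par c ∉ X.S := by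
    intro h
    exact hcW (H.tch (par c) h (by rw [hO]; exact Finset.notMem_empty _) c hcA rfl hct)
  obtain ⟨gw, N, hgwR, hN1, hN2, H2⟩ := opn' E hT8 hT hAM hR G (p := par c) (w := c)
    hpW hpS hcA hcW rfl 0 0 (Nat.zero_le _)
  have hcO : c ∉ X.Op := by rw [hO]; exact Finset.notMem_empty _
  set X2 : Cfg V := ⟨insert c X.W, insert c X.S, insert c X.Op, Function.update X.g c gw,
    Function.update X.ent c (X.g (par c) + gw), Function.update X.rho c c,
    Function.update X.Rs c N⟩ with hX2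
  have G2 : Good v par dd A M P0 R RB (2 * D + 2) T X2 := H2
  have hOp2 : ∀ x ∈ X2.Op, x = c := by
    intro x hx
    have h1 : x ∈ insert c X.Op := hx
    rw [hO] at h1
    simpa using h1
  have e1 : X2.ent c = X.g (par c) + gw := by simp [hX2]
  have e2 : X2.g c = gw := by simp [hX2]
  have e3 : X2.Rs c = N := by simp [hX2]
  refine ⟨X2, ⟨G2, ?_, ?_, ?_, ?_, ?_⟩, ?_⟩
  · intro u hu
    rw [hOp2 u hu]
    exact hctl
  · intro u hu l hl
    rw [hOp2 u hu, e1, e2, e3]
    have := hN2 l hl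
    simpa using this
  · intro u hu
    rw [hOp2 u hu, e1]
    have h1 := G.bd (par c) hpW hpS
    have h2 : RB * dd c = RB * dd (par c) + RB := by rw [hdc]; ring
    omega
  · intro u hu x hx hxu
    rw [hOp2 u hu] at hxu
    have h1 : x ∈ insert c X.W := hx
    rcases Finset.mem_insert.1 h1 with h2 | h2
    · rw [h2] at hxu
      rw [hxu] at hdc
      omega
    · rcases G.parc x h2 with h3 | h3
      · exact hcv (hxu.symm.trans h3)
      · exact hcW (hxu ▸ h3)
  · intro x hx hxO y hy hyx hyt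
    have hxc : x ≠ c := by
      intro e
      apply hxO
      rw [e]
      exact Finset.mem_insert_self _ _
    have hx' : x ∈ insert c X.S := hx
    have hxS : x ∈ X.S := (Finset.mem_insert.1 hx').resolve_left hxc
    exact Finset.mem_insert_of_mem
      (H.tch x hxS (by rw [hO]; exact Finset.notMem_empty _) y hy hyx hyt)
  · have : X2.W.card = X.W.card + 1 := Finset.card_insert_of_notMem hcW
    omega

theorem run1 {v : V} {par : V → V} {dd : V → ℕ} {A : Finset V} {M P0 R RB D : ℕ} {T : ℤ}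
    (E : Env v par dd A) (hT8 : T % 16 = 8)
    (hT : ∀ x ∈ A, 16 * ((M : ℤ) + RB * dd x) + 16 * R + 16 < T)
    (hAM : A.card ≤ M) (hR : 2 * ((2 * D + 3) ^ 2 * M) + P0 + 2 ≤ R)
    (hD : M.size + 1 ≤ D) (hRB : R * D ≤ RB) :
    ∃ X : Cfg V, Good v par dd A M P0 R RB (2 * D + 2) T X ∧ X.Op = ∅ ∧
      ∀ c ∈ A, tall3 v par c → c ∈ X.W := by
  classical
  have hRB' : R ≤ RB := (Nat.le_mul_of_pos_right R (by omega)).trans hRB
  have key : ∀ n : ℕ, ∀ X : Cfg V, Top v par dd A M P0 R RB D T X →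
      A.card - X.W.card ≤ n → ∃ X : Cfg V, Good v par dd A M P0 R RB (2 * D + 2) T X ∧
        X.Op = ∅ ∧ ∀ c ∈ A, tall3 v par c → c ∈ X.W := by
    intro n
    induction n with
    | zero =>
      intro X H hn
      have h1 : X.W = A := Finset.eq_of_subset_of_card_le H.good.sub (by omega)
      refine ⟨X, H.good, ?_, fun c hc _ => h1 ▸ hc⟩
      -- an open vertex would have an unlabelled child
      by_contra hne
      obtain ⟨u, hu⟩ := Finset.nonempty_iff_ne_empty.2 hne
      obtain ⟨X', H', hlt⟩ := gadget E hT8 hT hAM hR hD hRB H hu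
      have h2 := Finset.card_le_card H'.good.sub
      rw [h1] at hlt
      omega
    | succ n ih =>
      intro X H hn
      by_cases hO : X.Op = ∅
      · by_cases hex : ∃ c ∈ A, c ∉ X.W ∧ tall3 v par c
        · obtain ⟨X', H', hc⟩ := opening E hT8 hT hAM hR hRB' H hO hex
          have h2 := Finset.card_le_card H'.good.sub
          exact ih X' H' (by omega)
        · push Not at hex
          refine ⟨X, H.good, hO, ?_⟩
          intro c hc hct
          by_contra h
          exact hex c hc h hct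
      · obtain ⟨u, hu⟩ := Finset.nonempty_iff_ne_empty.2 hO
        obtain ⟨X', H', hlt⟩ := gadget E hT8 hT hAM hR hD hRB H hu
        have h2 := Finset.card_le_card H'.good.sub
        exact ih X' H' (by omega)
  -- the initial state
  set W0 : Finset V := A.filter (fun x => par x = v) with hW0
  set e := W0.equivFin with he
  set g0 : V → ℕ := fun x => if h : x ∈ W0 then (e ⟨x, h⟩ : ℕ) else 0 with hg0
  have hg0e : ∀ x, ∀ h : x ∈ W0, g0 x = (e ⟨x, h⟩ : ℕ) := by
    intro x h
    simp only [hg0]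
    rw [dif_pos h]
  have hg0lt : ∀ x ∈ W0, g0 x < M := by
    intro x hx
    rw [hg0e x hx]
    have h1 := (e ⟨x, hx⟩).2
    have h2 : W0.card ≤ A.card := Finset.card_filter_le _ _
    omega
  have hg0inj : ∀ x ∈ W0, ∀ y ∈ W0, g0 x = g0 y → x = y := by
    intro x hx y hy h
    rw [hg0e x hx, hg0e y hy] at h
    exact congrArg Subtype.val (e.injective (Fin.ext h))
  have hW0m : ∀ x ∈ W0, x ∈ A ∧ par x = v := fun x hx => Finset.mem_filter.1 hx
  have hW0v : ∀ x ∈ W0, x ≠ v := fun x hx e => E.hvA (e ▸ (hW0m x hx).1)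
  have hlab : ∀ x ∈ W0, lab v par T ∅ g0 x = F v T ∅ g0 x := by
    intro x hx
    unfold lab
    rw [(hW0m x hx).2, F_v, zero_sub, abs_neg, abs_of_nonneg]
    rw [F_L (hW0v x hx) (Finset.notMem_empty x)]
    have h1 : (g0 x : ℤ) < M := by exact_mod_cast hg0lt x hx
    have h2 : (0 : ℤ) ≤ RB * dd x := by positivity
    have h3 : (0 : ℤ) ≤ R := by positivity
    have h4 := hT x (hW0m x hx).1
    linarith
  refine key _ ⟨W0, ∅, ∅, g0, fun _ => 0, fun _ => v, fun _ => ∅⟩ ?_ le_rfl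
  constructor
  · constructor
    · exact Finset.filter_subset _ _
    · exact Finset.empty_subset _
    · exact Finset.empty_subset _
    · intro x hx
      exact Or.inl (hW0m x hx).2
    · simp
    · intro x hx hxv
      exact Finset.mem_filter.2 ⟨hx, hxv⟩
    · intro x hx y hy _ _ h
      exact hg0inj x hx y hy h
    · simp
    · simp
    · intro x hx _
      have := hg0lt x hx
      simp only
      omega
    · simp
    · simp
    · simp
    · simp
    · simp
    · simp
    · intro x hx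
      exact Or.inl ⟨x, hx, Finset.notMem_empty _, hlab x hx⟩
    · intro x hx y hy h
      simp only at h hx hy
      rw [hlab x hx, hlab y hy, F_L (hW0v x hx) (Finset.notMem_empty x),
        F_L (hW0v y hy) (Finset.notMem_empty y)] at h
      exact hg0inj x hx y hy (by omega)
  · simp
  · simp
  · simp
  · simp
  · simp

end Pool.Agent.TH908.GT
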