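import Mathlib
import Pool.Agent.TH908.GT.D
import Pool.Agent.H276R3.GC
import Pool.Agent.H115R2.Base
import Pool.Agent.H115R2.TwoAdic

/-! Second phase and conclusion. -/

set_option autoImplicit false

namespace Pool.Agent.TH908.GT

open Finset Pool.Agent.H276R3.GA Pool.Agent.H276R3

open Pool.Agent.H115R2 in
theorem core {V : Type} [Fintype V] (G : SimpleGraph V) (hG : G.IsTree) (v : V)
    (t h M R RB D : ℕ)
    (ht : {x : V | x ≠ v ∧ ¬ G.Adj v x}.ncard ≤ t) (hh : ∀ x, G.dist v x ≤ h)
    (htM : 2 * t ≤ M) (hM1 : 1 ≤ M)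
    (hR : 2 * ((2 * D + 3) ^ 2 * M) + (6 * M + 3) + 2 ≤ R)
    (hD : M.size + 1 ≤ D) (hRB : R * D ≤ RB)
    (hm : 16 * (M + RB * h) + 16 * R + 96 * M + 100 ≤ G.edgeSet.ncard) : Graceful G := by
  classical
  obtain ⟨par, hp1, hp2⟩ := exists_parent G hG v
  have hmV := ncard_edge G hG
  obtain ⟨m, hmdef⟩ : ∃ m, G.edgeSet.ncard = m := ⟨_, rfl⟩
  rw [hmdef] at hm hmV
  have hadj : ∀ x, x ≠ v → (par x = v ↔ G.Adj v x) := by
    intro x hx
    constructor
    · intro e
      have := (hp1 x hx).1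
      rwa [e] at this
    · intro hv
      apply hp2 x v hv.symm
      rw [SimpleGraph.dist_eq_one_iff_adj.2 hv, SimpleGraph.dist_self]
  set A : Finset V := Finset.univ.filter
    (fun x => x ≠ v ∧ (par x = v → ∃ z, z ≠ v ∧ par z = x)) with hA
  have hAm : ∀ x, x ∈ A ↔ x ≠ v ∧ (par x = v → ∃ z, z ≠ v ∧ par z = x) := by
    intro x
    simp [hA]
  have hvA : v ∉ A := fun h1 => ((hAm v).1 h1).1 rfl
  have hAv : ∀ x ∈ A, x ≠ v := fun x hx => ((hAm x).1 hx).1
  have hAp : ∀ x ∈ A, par x = v ∨ par x ∈ A := by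
    intro x hx
    by_cases h1 : par x = v
    · exact Or.inl h1
    · exact Or.inr ((hAm _).2 ⟨h1, fun _ => ⟨x, hAv x hx, rfl⟩⟩)
  set B : Finset V := Finset.univ.filter (fun x => x ≠ v ∧ ¬ G.Adj v x) with hB
  have hBc : B.card ≤ t := by
    rw [← Set.ncard_coe_finset]
    have : (B : Set V) = {x : V | x ≠ v ∧ ¬ G.Adj v x} := by
      ext x
      simp [hB]
    rw [this]
    exact ht
  have hAB : A ⊆ B ∪ B.image par := by
    intro x hx
    rw [Finset.mem_union]
    by_cases h1 : par x = v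
    · right
      obtain ⟨z, hz, hzx⟩ := ((hAm x).1 hx).2 h1
      rw [Finset.mem_image]
      refine ⟨z, ?_, hzx⟩
      simp only [hB, Finset.mem_filter, Finset.mem_univ, true_and]
      exact ⟨hz, fun h2 => hAv x hx (hzx.symm.trans ((hadj z hz).2 h2))⟩
    · left
      simp only [hB, Finset.mem_filter, Finset.mem_univ, true_and]
      exact ⟨hAv x hx, fun h2 => h1 ((hadj x (hAv x hx)).2 h2)⟩
  have hAM : A.card ≤ M := by
    calc A.card ≤ (B ∪ B.image par).card := Finset.card_le_card hAB
      _ ≤ B.card + (B.image par).card := Finset.card_union_le _ _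
      _ ≤ B.card + B.card := Nat.add_le_add_left Finset.card_image_le _
      _ ≤ M := by omega
  have E : Env v par (fun x => G.dist v x) A := by
    refine ⟨hvA, ?_, hAp, fun x hx => (hp1 x hx).2⟩
    intro x hx hpx
    exact (hAm x).2 ⟨hx, fun h1 => absurd h1 hpx⟩
  -- first phase
  obtain ⟨T', hT'1, hT'2⟩ : ∃ T' : ℕ, 16 * T' + 8 ≤ m ∧ m < 16 * T' + 24 :=
    ⟨(m - 8) / 16, by omega, by omega⟩
  set T : ℤ := 16 * (T' : ℤ) + 8 with hT
  have hT8 : T % 16 = 8 := by omega
  have hdh : ∀ x, RB * G.dist v x ≤ RB * h := fun x => Nat.mul_le_mul_left _ (hh x)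
  have hTb : ∀ x ∈ A, 16 * ((M : ℤ) + RB * (G.dist v x : ℕ)) + 16 * R + 16 < T := by
    intro x _
    have h0 := hdh x
    have h1 : 16 * (M + RB * G.dist v x) + 16 * R + 16 < 16 * T' + 8 := by omega
    rw [hT]
    exact_mod_cast h1
  obtain ⟨X, HG, hOp, htall⟩ := run1 (P0 := 6 * M + 3) (R := R) (M := M) (T := T) (RB := RB)
    (D := D) E hT8 hTb hAM hR hD hRB
  obtain ⟨W, hWdef⟩ : ∃ W, X.W = W := ⟨_, rfl⟩
  obtain ⟨S, hSdef⟩ : ∃ S, X.S = S := ⟨_, rfl⟩
  obtain ⟨g, hgdef⟩ : ∃ g, X.g = g := ⟨_, rfl⟩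
  have H := HG
  unfold Good at H
  rw [hWdef, hSdef, hgdef, hOp] at H
  rw [hWdef] at htall
  have hlab1 : ∀ x ∈ W, ∃ w ∈ W, lab v par T S g x = F v T S g w := by
    intro x hx
    rcases H.lab1 x hx with ⟨w, hw, _, hwe⟩ | ⟨u, hu, _⟩
    · exact ⟨w, hw, hwe⟩
    · exact absurd hu (Finset.notMem_empty _)
  have hWM : W.card ≤ M := (Finset.card_le_card H.sub).trans hAM
  have hgL : ∀ x ∈ W, x ∉ S → g x ≤ M + RB * h := fun x hx hxS =>
    (H.bd x hx hxS).trans (Nat.add_le_add_left (hdh x) _)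
  have hSW : ∀ x ∈ S, x ∈ W := fun x hx => H.Ssub hx
  -- data for the second phase
  set s0 : V → ℕ := fun x => if x ∈ S then 4 else 3 with hs0
  set o0 : V → ℕ := fun x => if x ∈ S then g x else 2 * (T' - g x) + 1 with ho0
  have hs0S : ∀ x ∈ S, s0 x = 4 := fun x hx => by simp [hs0, hx]
  have ho0S : ∀ x ∈ S, o0 x = g x := fun x hx => by simp [ho0, hx]
  have hs0L : ∀ x, x ∉ S → s0 x = 3 := fun x hx => by simp [hs0, hx]
  have ho0L : ∀ x, x ∉ S → o0 x = 2 * (T' - g x) + 1 := fun x hx => by simp [ho0, hx]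
  have hoinj : ∀ x ∈ W, ∀ y ∈ W, o0 x = o0 y → x = y := by
    intro x hx y hy he
    by_cases hxS : x ∈ S
    · by_cases hyS : y ∈ S
      · rw [ho0S x hxS, ho0S y hyS] at he
        exact H.injS x hxS y hyS he
      · exfalso
        rw [ho0S x hxS, ho0L y hyS] at he
        have h1 := (H.sm x hxS).2.2
        have h2 := hgL y hy hyS
        omega
    · by_cases hyS : y ∈ S
      · exfalso
        rw [ho0L x hxS, ho0S y hyS] at he
        have h1 := (H.sm y hyS).2.2
        have h2 := hgL x hx hxS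
        omega
      · rw [ho0L x hxS, ho0L y hyS] at he
        have h1 := hgL x hx hxS
        have h2 := hgL y hy hyS
        exact H.injL x hx y hy hxS hyS (by omega)
  set d : V → ℕ := fun x => if x ∈ W then 0 else if par x ∈ W then 1 else
    if par (par x) ∈ W then 2 else 3 with hd
  have hd0 : ∀ x ∈ W, d x = 0 := fun x hx => by simp [hd, hx]
  have hnt : ∀ x ∈ A, x ∉ W → par x ≠ v := fun x hx hxW e => hxW (H.top x hx e)
  have hpAA : ∀ x ∈ A, x ∉ W → par x ∈ A := fun x hx hxW => (hAp x hx).resolve_left (hnt x hx hxW)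
  have hd1 : ∀ x ∈ A, x ∉ W → d x = d (par x) + 1 := by
    intro x hx hxW
    by_cases hpx : par x ∈ W
    · simp [hd, hxW, hpx]
    · by_cases hppx : par (par x) ∈ W
      · simp [hd, hxW, hpx, hppx]
      · have h1 : par (par (par x)) ∈ W := by
          have h2 := hpAA x hx hxW
          have h3 := hpAA (par x) h2 hpx
          have h4 := hpAA (par (par x)) h3 hppx
          exact htall _ h4 ⟨par (par x), hAv _ h3, rfl, par x, x, hAv _ h2, hAv x hx, rfl, rfl⟩
        simp [hd, hxW, hpx, hppx, h1]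
  have hd2 : ∀ x ∈ A, d x ≤ 3 := by
    intro x _
    simp only [hd]
    split_ifs <;> omega
  have hval : ∀ x ∈ W, ((2 ^ s0 x * o0 x : ℕ) : ℤ) = F v T S g x := by
    intro x hx
    have hxv := hAv x (H.sub hx)
    by_cases hxS : x ∈ S
    · rw [F_S hxv hxS, hs0S x hxS, ho0S x hxS]
      push_cast
      ring
    · rw [F_L hxv hxS, hs0L x hxS, ho0L x hxS, hT]
      have h1 := hgL x hx hxS
      have h2 : g x ≤ T' := by omega
      push_cast [Nat.cast_sub h2]
      ring
  have hinit : GC.St v par d A W 3 (2 * M + 1) m W s0 o0 := by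
    constructor
    · constructor
      · exact H.sub
      · exact H.parc
      · intro x hx
        by_cases hxS : x ∈ S
        · rw [ho0S x hxS]
          exact (H.sm x hxS).1
        · rw [ho0L x hxS]; omega
      · intro x hx
        by_cases hxS : x ∈ S
        · rw [hs0S x hxS]; omega
        · rw [hs0L x hxS]; omega
      · intro x hx y hy he _
        exact hoinj x hx y hy he
      · intro x hx y hy he
        rw [hoinj x hx y hy he]
      · intro w hw u hu he hne _
        exact absurd (hoinj w hw u hu he) hne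
      · intro x hx
        rw [hd0 x hx]
        unfold GC.Lb
        by_cases hxS : x ∈ S
        · rw [hs0S x hxS, ho0S x hxS]
          obtain ⟨h1, h2, h3⟩ := H.sm x hxS
          norm_num
          omega
        · rw [hs0L x hxS, ho0L x hxS]
          have h1 := hgL x hx hxS
          norm_num
          omega
      · intro x hx
        by_cases hxS : x ∈ S
        · rw [hs0S x hxS, ho0S x hxS]
          obtain ⟨h1, h2, h3⟩ := H.sm x hxS
          norm_num
          omega
        · rw [hs0L x hxS, ho0L x hxS]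
          norm_num
          omega
    · exact Finset.Subset.refl _
    · intro p hp u hu hpu he
      exfalso
      have h1 := hoinj u hu p hp he
      have h2 := (hp1 u (hAv u (H.sub hu))).1.ne
      exact h2 (hpu.trans h1.symm)
    · intro x hx hxW
      exact absurd hx hxW
  obtain ⟨s, o, K, hK⟩ := GC.run2 (v := v) (par := par) (d := d) (A := A) (W0 := W) (h := 3)
    (k := M) (m := m) hvA hd1 hd0 hd2 hpAA hAM A.card W s0 o0 hinit (Nat.sub_le _ _)
  -- the labels
  set fA : V → ℕ := fun x => 2 ^ s x * o x with hfA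
  have hfW : ∀ x ∈ W, ((fA x : ℕ) : ℤ) = F v T S g x := by
    intro x hx
    rw [← hval x hx]
    simp only [hfA]
    rw [(hK x hx).1, (hK x hx).2]
  have hfinj : ∀ x ∈ A, ∀ y ∈ A, fA x = fA y → x = y := by
    intro x hx y hy e
    have h1 := two_pow_odd_inj (K.odd x hx) (K.odd y hy) e
    have h2 := K.I x hx y hy h1.2
    exact K.inj x hx y hy h1.2 (by omega)
  have hfpos : ∀ x ∈ A, 1 ≤ fA x := by
    intro x hx
    have h1 := K.odd x hx
    have h2 : 0 < 2 ^ s x * o x := Nat.mul_pos (by positivity) (by omega)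
    exact h2
  set TT : Finset ℕ := Finset.Icc 1 m \ A.image fA with hTT
  set Lf : Finset V := (Finset.univ.erase v) \ A with hLf
  have himc : (A.image fA).card = A.card :=
    Finset.card_image_of_injOn (fun x hx y hy e => hfinj x hx y hy e)
  have himsub : A.image fA ⊆ Finset.Icc 1 m := by
    intro n hn
    obtain ⟨x, hx, rfl⟩ := Finset.mem_image.1 hn
    rw [Finset.mem_Icc]
    exact ⟨hfpos x hx, K.hi x hx⟩
  have hTc : TT.card = m - A.card := by
    rw [hTT, Finset.card_sdiff_of_subset himsub, himc, Nat.card_Icc]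
    omega
  have hLc : Lf.card = m - A.card := by
    rw [hLf, Finset.card_sdiff_of_subset, Finset.card_erase_of_mem (Finset.mem_univ v),
      Finset.card_univ]
    · omega
    · intro x hx
      rw [Finset.mem_erase]
      exact ⟨hAv x hx, Finset.mem_univ x⟩
  have e : Lf ≃ TT := Finset.equivOfCardEq (by rw [hTc, hLc])
  set f : V → ℕ := fun x => if x = v then 0 else if hx : x ∈ Lf then ((e ⟨x, hx⟩ : TT) : ℕ)
    else fA x with hf
  have hfv : f v = 0 := by simp [hf]
  have hLm : ∀ x, x ∈ Lf ↔ x ≠ v ∧ x ∉ A := by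
    intro x
    simp [hLf]
  have hfa : ∀ x ∈ A, f x = fA x := by
    intro x hx
    have h1 : x ∉ Lf := fun h2 => ((hLm x).1 h2).2 hx
    simp [hf, hAv x hx, h1]
  have hfl : ∀ x, ∀ hx : x ∈ Lf, f x = ((e ⟨x, hx⟩ : TT) : ℕ) := by
    intro x hx
    simp [hf, ((hLm x).1 hx).1, hx]
  have hflT : ∀ x ∈ Lf, f x ∈ TT := by
    intro x hx
    rw [hfl x hx]
    exact (e ⟨x, hx⟩).2
  have htri : ∀ x, x = v ∨ x ∈ A ∨ x ∈ Lf := by
    intro x
    rw [hLm]
    tauto
  have hTmem : ∀ n, n ∈ TT ↔ (1 ≤ n ∧ n ≤ m) ∧ ∀ x ∈ A, fA x ≠ n := by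
    intro n
    simp [hTT]
  have hpos : ∀ x, x ≠ v → 1 ≤ f x := by
    intro x hx
    rcases htri x with h1 | h1 | h1
    · exact absurd h1 hx
    · rw [hfa x h1]
      exact hfpos x h1
    · exact ((hTmem _).1 (hflT x h1)).1.1
  have hle : ∀ x, f x + 1 ≤ Fintype.card V := by
    intro x
    rcases htri x with h1 | h1 | h1
    · rw [h1, hfv]
      omega
    · rw [hfa x h1]
      have := K.hi x h1
      simp only [hfA]
      omega
    · have := ((hTmem _).1 (hflT x h1)).1.2
      omega
  have hinj : Function.Injective f := by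
    intro x y hxy
    by_cases hxv : x = v
    · by_cases hyv : y = v
      · rw [hxv, hyv]
      · have := hpos y hyv
        rw [hxv, hfv] at hxy
        omega
    · by_cases hyv : y = v
      · have := hpos x hxv
        rw [hyv, hfv] at hxy
        omega
      · rcases (htri x).resolve_left hxv with h1 | h1
        · rcases (htri y).resolve_left hyv with h2 | h2
          · rw [hfa x h1, hfa y h2] at hxy
            exact hfinj x h1 y h2 hxy
          · exfalso
            rw [hfa x h1] at hxy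
            exact ((hTmem _).1 (hflT y h2)).2 x h1 hxy
        · rcases (htri y).resolve_left hyv with h2 | h2
          · exfalso
            rw [hfa y h2] at hxy
            exact ((hTmem _).1 (hflT x h1)).2 y h2 hxy.symm
          · rw [hfl x h1, hfl y h2] at hxy
            have h3 := e.injective (Subtype.ext hxy)
            exact congrArg Subtype.val h3
  -- the edge labels
  have hLp : ∀ x ∈ Lf, par x = v := by
    intro x hx
    obtain ⟨h1, h2⟩ := (hLm x).1 hx
    by_contra h3
    exact h2 ((hAm x).2 ⟨h1, fun h4 => absurd h4 h3⟩)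
  have hlW : ∀ x ∈ W, ((Int.natAbs ((f (par x) : ℤ) - (f x : ℤ)) : ℕ) : ℤ) = lab v par T S g x := by
    intro x hx
    unfold lab
    rw [Int.natCast_natAbs]
    have h1 : (f x : ℤ) = F v T S g x := by rw [hfa x (H.sub hx), hfW x hx]
    have h2 : (f (par x) : ℤ) = F v T S g (par x) := by
      rcases H.parc x hx with h3 | h3
      · rw [h3, hfv, F_v]; rfl
      · rw [hfa _ (H.sub h3), hfW _ h3]
    rw [h1, h2]
  refine graceful_of_lab G hG v par (fun x hx => (hp1 x hx).1) ?_ f hinj hle ?_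
  · intro a b hab
    rcases hG.dist_eq_dist_add_one_of_adj v hab with h' | h'
    · left
      refine ⟨?_, hp2 a b hab h'⟩
      rintro rfl
      simp at h'
    · right
      refine ⟨?_, hp2 b a hab.symm h'⟩
      rintro rfl
      simp at h'
  · -- classes
    have hcls : ∀ x, x ≠ v →
        (x ∈ W ∧ ∃ w ∈ W, Int.natAbs ((f (par x) : ℤ) - (f x : ℤ)) = f w) ∨
        (x ∈ A ∧ x ∉ W ∧ ∃ w ∈ A, w ∉ W ∧ par w = par x ∧ f x + f w = f (par x) ∧
          Int.natAbs ((f (par x) : ℤ) - (f x : ℤ)) = f w) ∨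
        (x ∈ Lf ∧ Int.natAbs ((f (par x) : ℤ) - (f x : ℤ)) = f x) := by
      intro x hx
      rcases (htri x).resolve_left hx with h1 | h1
      · by_cases hxW : x ∈ W
        · left
          refine ⟨hxW, ?_⟩
          obtain ⟨w, hw, hwe⟩ := hlab1 x hxW
          refine ⟨w, hw, ?_⟩
          have h2 := hlW x hxW
          rw [hwe, ← hfW w hw, ← hfa w (H.sub hw)] at h2
          exact_mod_cast h2
        · right; left
          obtain ⟨w, hw, hwW, hpw, hsum⟩ := K.sib x h1 hxW
          have hpA := hpAA x h1 hxW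
          have h3 : f x + f w = f (par x) := by
            rw [hfa x h1, hfa w hw, hfa _ hpA]
            exact hsum
          exact ⟨h1, hxW, w, hw, hwW, hpw, h3, by omega⟩
      · right; right
        refine ⟨h1, ?_⟩
        rw [hLp x h1, hfv]
        simp
    intro x y hx hy hxy
    rcases hcls x hx with ⟨h1, w, hw, hwe⟩ | ⟨h1, h1', w, hw, hwW, hpw, hsum, hwe⟩ | ⟨h1, hwe⟩
    · rcases hcls y hy with ⟨h2, w', hw', hwe'⟩ | ⟨h2, h2', w', hw', hwW', hpw', hsum', hwe'⟩ |
        ⟨h2, hwe'⟩
      · have h3 := hlW x h1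
        have h4 := hlW y h2
        rw [hxy] at h3
        exact H.lab2 x h1 y h2 (h3.symm.trans h4)
      · exfalso
        have h3 : w = w' := hinj (by rw [← hwe, ← hwe', hxy])
        exact hwW' (h3 ▸ hw)
      · exfalso
        have h3 : w = y := hinj (by rw [← hwe, ← hwe', hxy])
        exact ((hLm y).1 h2).2 (h3 ▸ H.sub hw)
    · rcases hcls y hy with ⟨h2, w', hw', hwe'⟩ | ⟨h2, h2', w', hw', hwW', hpw', hsum', hwe'⟩ |
        ⟨h2, hwe'⟩
      · exfalso
        have h3 : w = w' := hinj (by rw [← hwe, ← hwe', hxy])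
        exact hwW (h3 ▸ hw')
      · have h3 : w = w' := hinj (by rw [← hwe, ← hwe', hxy])
        have h4 : par x = par y := by rw [← hpw, ← hpw', h3]
        apply hinj
        rw [h3] at hsum
        rw [h4] at hsum
        omega
      · exfalso
        have h3 : w = y := hinj (by rw [← hwe, ← hwe', hxy])
        exact ((hLm y).1 h2).2 (h3 ▸ hw)
    · rcases hcls y hy with ⟨h2, w', hw', hwe'⟩ | ⟨h2, h2', w', hw', hwW', hpw', hsum', hwe'⟩ |
        ⟨h2, hwe'⟩
      · exfalso
        have h3 : x = w' := hinj (by rw [← hwe, ← hwe', hxy])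
        exact ((hLm x).1 h1).2 (h3 ▸ H.sub hw')
      · exfalso
        have h3 : x = w' := hinj (by rw [← hwe, ← hwe', hxy])
        exact ((hLm x).1 h1).2 (h3 ▸ hw')
      · exact hinj (by rw [← hwe, ← hwe', hxy])

end Pool.Agent.TH908.GT
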