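import Mathlib
import Pool.Agent.TH908.GT.E

/-! The constants. -/

set_option autoImplicit false

namespace Pool.Agent.TH908.GT

open Finset Pool.Agent.H115R2

/-- a tree with one vertex -/
theorem graceful_zero {V : Type} [Fintype V] (G : SimpleGraph V) (v : V)
    (hv : ∀ x, x = v) : Graceful G := by
  have hno : ∀ a b, ¬ G.Adj a b := by
    intro a b h
    exact h.ne (by rw [hv a, hv b])
  have he : G.edgeSet.ncard = 0 := by
    rw [Set.ncard_eq_zero (Set.toFinite _), SimpleGraph.edgeSet_eq_empty]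
    ext a b
    simp [hno a b]
  refine ⟨fun _ => 0, fun a b _ => by rw [hv a, hv b], fun _ => Nat.zero_le _, ?_⟩
  rw [he]
  ext d
  simp [hno]

theorem main {V : Type} [Fintype V] (G : SimpleGraph V) (hG : G.IsTree) (v : V) (h t : ℕ)
    (hh : ∀ x, G.dist v x ≤ h) (ht : {x : V | x ≠ v ∧ ¬ G.Adj v x}.ncard ≤ t)
    (hm : (2 : ℝ) * 10 ^ 5 * h * ((t : ℝ) + 1) * Real.log ((t : ℝ) + 2) ^ 3 ≤
      (G.edgeSet.ncard : ℝ)) : Graceful G := by
  rcases Nat.eq_zero_or_pos h with h0 | h0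
  · apply graceful_zero G v
    intro x
    have h1 := hh x
    have h2 : G.dist v x = 0 := by omega
    exact (hG.connected.dist_eq_zero_iff.1 h2).symm
  obtain ⟨M, hM⟩ : ∃ M, M = 2 * (t + 1) := ⟨_, rfl⟩
  obtain ⟨D, hD⟩ : ∃ D, D = M.size + 1 := ⟨_, rfl⟩
  have hM2 : 2 ≤ M := by omega
  have hD3 : 3 ≤ D := by
    have h1 : Nat.size 2 ≤ M.size := Nat.size_le_size hM2
    have h2 : Nat.size 2 = 2 := by decide
    omega
  obtain ⟨R, hR⟩ : ∃ R, R = 2 * ((2 * D + 3) ^ 2 * M) + (6 * M + 3) + 2 := ⟨_, rfl⟩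
  obtain ⟨RB, hRB⟩ : ∃ RB, RB = R * D := ⟨_, rfl⟩
  -- the bound for R
  have hR1 : R ≤ 19 * (D ^ 2 * M) := by
    have h1 : (2 * D + 3) ^ 2 ≤ 9 * D ^ 2 := by nlinarith
    have h2 : (2 * D + 3) ^ 2 * M ≤ 9 * D ^ 2 * M := Nat.mul_le_mul_right _ h1
    have h3 : 9 ≤ D ^ 2 := by nlinarith
    have h4 : 9 * M ≤ D ^ 2 * M := Nat.mul_le_mul_right _ h3
    have h5 : 9 * D ^ 2 * M = 9 * (D ^ 2 * M) := by ring
    omega
  have hcore : 16 * (M + RB * h) + 16 * R + 96 * M + 100 ≤ 412 * (D ^ 3 * M * h) := by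
    have e0 : R * D ≤ 19 * (D ^ 3 * M) := by
      calc R * D ≤ 19 * (D ^ 2 * M) * D := Nat.mul_le_mul_right _ hR1
        _ = 19 * (D ^ 3 * M) := by ring
    have e1 : RB * h ≤ 19 * (D ^ 3 * M * h) := by
      rw [hRB]
      calc R * D * h ≤ 19 * (D ^ 3 * M) * h := Nat.mul_le_mul_right _ e0
        _ = 19 * (D ^ 3 * M * h) := by ring
    have e2 : 3 * (D ^ 2 * M) ≤ D ^ 3 * M * h := by
      calc 3 * (D ^ 2 * M) ≤ D * (D ^ 2 * M) := Nat.mul_le_mul_right _ hD3
        _ = D ^ 3 * M * 1 := by ring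
        _ ≤ D ^ 3 * M * h := Nat.mul_le_mul_left _ h0
    have e3 : 9 * M ≤ D ^ 2 * M := Nat.mul_le_mul_right _ (by nlinarith)
    omega
  have hlog : (D : ℝ) ≤ 6 * Real.log ((t : ℝ) + 2) := by
    have hlog2 := Real.log_two_gt_d9
    have h0' : M.size = (D - 1) := by omega
    have h1 : 2 ^ (D - 2) ≤ M := by
      by_contra hcon
      push Not at hcon
      have h2 := Nat.size_le.2 hcon
      omega
    have h2 : ((2 : ℝ) ^ (D - 3)) ≤ (t : ℝ) + 2 := by
      have h3 : 2 ^ (D - 3) * 2 ≤ 2 * (t + 1) := by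
        rw [← pow_succ, ← hM]
        have : D - 3 + 1 = D - 2 := by omega
        rw [this]
        exact h1
      have h4 : ((2 ^ (D - 3) : ℕ) : ℝ) ≤ ((t + 1 : ℕ) : ℝ) := by
        have : 2 ^ (D - 3) ≤ t + 1 := by omega
        exact_mod_cast this
      push_cast at h4
      linarith
    have h3 := Real.log_le_log (by positivity) h2
    rw [Real.log_pow] at h3
    have h4 : ((D - 3 : ℕ) : ℝ) = (D : ℝ) - 3 := by
      rw [Nat.cast_sub (by omega)]
      norm_num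
    rw [h4] at h3
    have h5 : Real.log 2 ≤ Real.log ((t : ℝ) + 2) := by
      apply Real.log_le_log (by norm_num)
      have : (0 : ℝ) ≤ t := by positivity
      linarith
    nlinarith
  have hlog0 : (0 : ℝ) ≤ Real.log ((t : ℝ) + 2) := by
    apply Real.log_nonneg
    have : (0 : ℝ) ≤ t := by positivity
    linarith
  refine core G hG v t h M R RB D ht hh (by omega) (by omega) (by omega) (by omega)
    (by rw [hRB]) ?_
  have h1 : ((16 * (M + RB * h) + 16 * R + 96 * M + 100 : ℕ) : ℝ) ≤ (G.edgeSet.ncard : ℝ) := by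
    refine le_trans ?_ hm
    have hD3r : (D : ℝ) ^ 3 ≤ (6 * Real.log ((t : ℝ) + 2)) ^ 3 :=
      pow_le_pow_left₀ (by positivity) hlog 3
    calc ((16 * (M + RB * h) + 16 * R + 96 * M + 100 : ℕ) : ℝ)
        ≤ ((412 * (D ^ 3 * M * h) : ℕ) : ℝ) := by exact_mod_cast hcore
      _ = 824 * (h * ((t : ℝ) + 1)) * (D : ℝ) ^ 3 := by
          rw [hM]
          push_cast
          ring
      _ ≤ 824 * (h * ((t : ℝ) + 1)) * (6 * Real.log ((t : ℝ) + 2)) ^ 3 := by
          apply mul_le_mul_of_nonneg_left hD3r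
          positivity
      _ = 177984 * (h * ((t : ℝ) + 1) * Real.log ((t : ℝ) + 2) ^ 3) := by ring
      _ ≤ 2 * 10 ^ 5 * (h * ((t : ℝ) + 1) * Real.log ((t : ℝ) + 2) ^ 3) := by
          apply mul_le_mul_of_nonneg_right (by norm_num)
          positivity
      _ = _ := by ring
  exact_mod_cast h1

end Pool.Agent.TH908.GT
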